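import Pool.Agent.Helper94.KC.GoalsC

/-!
# Project KC, packet IJ: the development is injective
-/

set_option autoImplicit false

namespace Pool.Agent.Helper1.KC

open Pool.Agent.Helper94.KC
open scoped Classical
open Finset

/-- two neighbouring directions of the triangular lattice -/
def Sec (u u' : ℤ × ℤ) : Prop :=
  (u = (1, 0) ∧ u' = (0, 1)) ∨ (u = (0, 1) ∧ u' = (-1, 1)) ∨ (u = (-1, 1) ∧ u' = (-1, 0)) ∨
  (u = (-1, 0) ∧ u' = (0, -1)) ∨ (u = (0, -1) ∧ u' = (1, -1)) ∨ (u = (1, -1) ∧ u' = (1, 0))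

/-- the lattice path with one corner -/
def cc (p u u' : ℤ × ℤ) (a i : ℕ) : ℤ × ℤ :=
  (p.1 + ((min i a : ℕ) : ℤ) * u.1 + ((i - a : ℕ) : ℤ) * u'.1,
   p.2 + ((min i a : ℕ) : ℤ) * u.2 + ((i - a : ℕ) : ℤ) * u'.2)

theorem hn_eq (p : ℤ × ℤ) : hn p = max (max p.1.natAbs p.2.natAbs) (p.1 + p.2).natAbs := rfl

theorem hn_le {p : ℤ × ℤ} {n : ℕ} (h : hn p ≤ n) :
    -(n : ℤ) ≤ p.1 ∧ p.1 ≤ n ∧ -(n : ℤ) ≤ p.2 ∧ p.2 ≤ n ∧ -(n : ℤ) ≤ p.1 + p.2 ∧
      p.1 + p.2 ≤ n := by
  rw [hn_eq, max_le_iff, max_le_iff] at h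
  obtain ⟨⟨h1, h2⟩, h3⟩ := h
  omega

theorem le_hn {p : ℤ × ℤ} {n : ℕ} (h1 : -(n : ℤ) ≤ p.1) (h2 : p.1 ≤ n) (h3 : -(n : ℤ) ≤ p.2)
    (h4 : p.2 ≤ n) (h5 : -(n : ℤ) ≤ p.1 + p.2) (h6 : p.1 + p.2 ≤ n) : hn p ≤ n := by
  rw [hn_eq, max_le_iff, max_le_iff]
  refine ⟨⟨?_, ?_⟩, ?_⟩ <;> omega

theorem hn_neg (p : ℤ × ℤ) : hn (-p) = hn p := by
  rw [hn_eq, hn_eq, Prod.fst_neg, Prod.snd_neg, ← neg_add, Int.natAbs_neg, Int.natAbs_neg,
    Int.natAbs_neg]

theorem hn_mk (x y : ℤ) : hn (x, y) = max (max x.natAbs y.natAbs) (x + y).natAbs := rfl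

theorem hn_comb {u u' : ℤ × ℤ} (h : Sec u u') (A B : ℕ) :
    hn ((A : ℤ) * u.1 + (B : ℤ) * u'.1, (A : ℤ) * u.2 + (B : ℤ) * u'.2) = A + B := by
  have e1 : ∀ x y : ℤ, x.natAbs ≤ A + B → y.natAbs ≤ A + B → (x + y).natAbs ≤ A + B →
      (x.natAbs = A + B ∨ y.natAbs = A + B ∨ (x + y).natAbs = A + B) → hn (x, y) = A + B := by
    intro x y h1 h2 h3 h4
    rw [hn_mk]
    refine le_antisymm (max_le (max_le h1 h2) h3) ?_
    rcases h4 with h4 | h4 | h4
    · exact h4 ▸ (le_max_left _ _).trans (le_max_left _ _)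
    · exact h4 ▸ (le_max_right _ _).trans (le_max_left _ _)
    · exact h4 ▸ le_max_right _ _
  rcases h with ⟨rfl, rfl⟩ | ⟨rfl, rfl⟩ | ⟨rfl, rfl⟩ | ⟨rfl, rfl⟩ | ⟨rfl, rfl⟩ | ⟨rfl, rfl⟩
  · simp only [mul_one, mul_zero, add_zero, zero_add]
    apply e1 <;> omega
  · simp only [mul_one, mul_zero, add_zero, zero_add, mul_neg]
    apply e1 <;> omega
  · simp only [mul_one, mul_zero, add_zero, zero_add, mul_neg]
    apply e1 <;> omega
  · simp only [mul_one, mul_zero, add_zero, zero_add, mul_neg]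
    apply e1 <;> omega
  · simp only [mul_one, mul_zero, add_zero, zero_add, mul_neg]
    apply e1 <;> omega
  · simp only [mul_one, mul_zero, add_zero, zero_add, mul_neg]
    apply e1 <;> omega

theorem cc_diff {p u u' : ℤ × ℤ} (h : Sec u u') (a : ℕ) {i j : ℕ} (hij : i ≤ j) :
    hn (cc p u u' a j - cc p u u' a i) = j - i := by
  have h1 : ((min j a : ℕ) : ℤ) - ((min i a : ℕ) : ℤ) = ((min j a - min i a : ℕ) : ℤ) := by omega
  have h2 : ((j - a : ℕ) : ℤ) - ((i - a : ℕ) : ℤ) = (((j - a) - (i - a) : ℕ) : ℤ) := by omega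
  have h3 : (min j a - min i a) + ((j - a) - (i - a)) = j - i := by omega
  rw [← h3, ← hn_comb h]
  congr 1
  rw [← h1, ← h2]
  ext
  · simp only [cc, Prod.fst_sub]
    ring
  · simp only [cc, Prod.snd_sub]
    ring

theorem cc_diff' {p u u' : ℤ × ℤ} (h : Sec u u') (a : ℕ) {i j : ℕ} (hij : i ≤ j) :
    hn (cc p u u' a i - cc p u u' a j) = j - i := by
  rw [← cc_diff h a hij, ← hn_neg, neg_sub]

theorem cc_ball {p u u' : ℤ × ℤ} (h : Sec u u') {a i l : ℕ} (hi : i ≤ l)
    (h0 : hn (cc p u u' a 0) ≤ 6) (hl : hn (cc p u u' a l) ≤ 6) :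
    hn (cc p u u' a i) ≤ 6 := by
  have g0 := hn_le h0
  have gl := hn_le hl
  have k1 : ((min i a : ℕ) : ℤ) ≤ ((min l a : ℕ) : ℤ) := by omega
  have k2 : ((i - a : ℕ) : ℤ) ≤ ((l - a : ℕ) : ℤ) := by omega
  have k3 : (0 : ℤ) ≤ ((min i a : ℕ) : ℤ) := by omega
  have k4 : (0 : ℤ) ≤ ((i - a : ℕ) : ℤ) := by omega
  have k5 : ((min 0 a : ℕ) : ℤ) = 0 := by omega
  have k6 : ((0 - a : ℕ) : ℤ) = 0 := by omega
  simp only [cc, k5, k6, zero_mul, add_zero] at g0
  simp only [cc] at gl
  revert g0 gl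
  unfold cc
  generalize ((min i a : ℕ) : ℤ) = s at *
  generalize ((min l a : ℕ) : ℤ) = s' at *
  generalize ((i - a : ℕ) : ℤ) = t at *
  generalize ((l - a : ℕ) : ℤ) = t' at *
  obtain ⟨x, y⟩ := p
  intro g0 gl
  simp only at g0
  rcases h with ⟨rfl, rfl⟩ | ⟨rfl, rfl⟩ | ⟨rfl, rfl⟩ | ⟨rfl, rfl⟩ | ⟨rfl, rfl⟩ | ⟨rfl, rfl⟩ <;>
  · simp only [mul_one, mul_zero, add_zero, mul_neg] at gl ⊢
    obtain ⟨g1, g2, g3, g4, g5, g6⟩ := g0
    obtain ⟨l1, l2, l3, l4, l5, l6⟩ := gl
    apply le_hn <;> simp only <;> push_cast at * <;> linarith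

theorem cc_straight (p u u' : ℤ × ℤ) {a i : ℕ} (hi : 1 ≤ i) (hia : i ≠ a) :
    cc p u u' a (i + 1) + cc p u u' a (i - 1) = cc p u u' a i + cc p u u' a i := by
  have h1 : ((min (i + 1) a : ℕ) : ℤ) + ((min (i - 1) a : ℕ) : ℤ) = 2 * ((min i a : ℕ) : ℤ) := by
    omega
  have h2 : ((i + 1 - a : ℕ) : ℤ) + ((i - 1 - a : ℕ) : ℤ) = 2 * ((i - a : ℕ) : ℤ) := by omega
  ext
  · simp only [cc, Prod.fst_add]
    linear_combination u.1 * h1 + u'.1 * h2
  · simp only [cc, Prod.snd_add]
    linear_combination u.2 * h1 + u'.2 * h2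

theorem dec (v : ℤ × ℤ) : ∃ (u u' : ℤ × ℤ) (a b : ℕ), Sec u u' ∧
    v = ((a : ℤ) * u.1 + (b : ℤ) * u'.1, (a : ℤ) * u.2 + (b : ℤ) * u'.2) ∧ a + b = hn v := by
  obtain ⟨x, y⟩ := v
  rcases le_total 0 x with hx | hx
  · rcases le_total 0 y with hy | hy
    · refine ⟨(1, 0), (0, 1), x.toNat, y.toNat, Or.inl ⟨rfl, rfl⟩, ?_, ?_⟩
      · ext <;> simp only <;> omega
      · simp only [hn_eq]
        omega
    · rcases le_total 0 (x + y) with hxy | hxy
      · refine ⟨(1, -1), (1, 0), (-y).toNat, (x + y).toNat,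
          Or.inr (Or.inr (Or.inr (Or.inr (Or.inr ⟨rfl, rfl⟩)))), ?_, ?_⟩
        · ext <;> simp only <;> omega
        · simp only [hn_eq]
          omega
      · refine ⟨(0, -1), (1, -1), (-x - y).toNat, x.toNat,
          Or.inr (Or.inr (Or.inr (Or.inr (Or.inl ⟨rfl, rfl⟩)))), ?_, ?_⟩
        · ext <;> simp only <;> omega
        · simp only [hn_eq]
          omega
  · rcases le_total 0 y with hy | hy
    · rcases le_total 0 (x + y) with hxy | hxy
      · refine ⟨(0, 1), (-1, 1), (x + y).toNat, (-x).toNat, Or.inr (Or.inl ⟨rfl, rfl⟩), ?_, ?_⟩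
        · ext <;> simp only <;> omega
        · simp only [hn_eq]
          omega
      · refine ⟨(-1, 1), (-1, 0), y.toNat, (-x - y).toNat,
          Or.inr (Or.inr (Or.inl ⟨rfl, rfl⟩)), ?_, ?_⟩
        · ext <;> simp only <;> omega
        · simp only [hn_eq]
          omega
    · refine ⟨(-1, 0), (0, -1), (-x).toNat, (-y).toNat,
        Or.inr (Or.inr (Or.inr (Or.inl ⟨rfl, rfl⟩))), ?_, ?_⟩
      · ext <;> simp only <;> omega
      · simp only [hn_eq]
        omega

theorem exWalk {V : Type} (G : SimpleGraph V) (g : ℕ → V) (n : ℕ)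
    (h : ∀ i < n, G.Adj (g i) (g (i + 1))) : ∃ w : G.Walk (g 0) (g n),
      w.support = (List.range (n + 1)).map g ∧
      w.edges = (List.range n).map (fun i => s(g i, g (i + 1))) := by
  induction n with
  | zero => exact ⟨SimpleGraph.Walk.nil, by simp, by simp⟩
  | succ n ih =>
    obtain ⟨w, h1, h2⟩ := ih fun i hi => h i (by omega)
    refine ⟨w.concat (h n (by omega)), ?_, ?_⟩
    · rw [SimpleGraph.Walk.support_concat, h1, List.range_succ (n := n + 1), List.map_append]
      simp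
    · rw [SimpleGraph.Walk.edges_concat, h2, List.range_succ, List.map_append]
      simp

theorem mem_wed {V : Type} {G : SimpleGraph V} {x y : V} (w : G.Walk x y) (e : Finset V) :
    e ∈ wed w ↔ ∃ s ∈ w.edges, s.toFinset = e := by
  unfold wed
  simp

theorem toFinset_mk {V : Type} (a b : V) : (s(a, b) : Sym2 V).toFinset = {a, b} := by
  ext x
  simp

/-- the closed walk through `g 1, .., g l = g 0` -/
theorem cyc {V : Type} (G : SimpleGraph V) (g : ℕ → V) (l : ℕ) (hl : 3 ≤ l)
    (h : ∀ i < l, G.Adj (g i) (g (i + 1))) (h0 : g l = g 0)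
    (hinj : ∀ i j, 1 ≤ i → i ≤ l → 1 ≤ j → j ≤ l → g i = g j → i = j) :
    ∃ w : G.Walk (g l) (g l), w.IsCycle ∧ w.length = l ∧
      (∀ v, v ∈ w.support ↔ ∃ i, 1 ≤ i ∧ i ≤ l ∧ g i = v) ∧
      (∀ e, e ∈ wed w ↔ e = {g l, g 1} ∨ ∃ i, i < l - 1 ∧ e = {g (i + 1), g (i + 2)}) := by
  obtain ⟨m, rfl⟩ : ∃ m, l = m + 1 := ⟨l - 1, by omega⟩
  obtain ⟨P, hs, he⟩ := exWalk G (fun i => g (i + 1)) m fun i hi => h (i + 1) (by omega)
  have hadj : G.Adj (g (m + 1)) (g 1) := by
    rw [h0]
    exact h 0 (by omega)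
  have hP : P.IsPath := by
    rw [SimpleGraph.Walk.isPath_def, hs]
    rw [List.nodup_map_iff_inj_on List.nodup_range]
    intro i hi j hj hij
    have hi := List.mem_range.1 hi
    have hj := List.mem_range.1 hj
    have := hinj (i + 1) (j + 1) (by omega) (by omega) (by omega) (by omega) hij
    omega
  have hw : (SimpleGraph.Walk.cons hadj P).edges =
      s(g (m + 1), g 1) :: (List.range m).map (fun i => s(g (i + 1), g (i + 2))) := by
    rw [SimpleGraph.Walk.edges_cons, he]
  refine ⟨SimpleGraph.Walk.cons hadj P, ?_, ?_, ?_, ?_⟩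
  · rw [SimpleGraph.Walk.cons_isCycle_iff]
    refine ⟨hP, ?_⟩
    rw [he]
    intro hmem
    obtain ⟨i, hi, hie⟩ := List.mem_map.1 hmem
    have hi := List.mem_range.1 hi
    rw [Sym2.eq_iff] at hie
    rcases hie with ⟨h1, h2⟩ | ⟨h1, h2⟩
    · have := hinj (i + 1) (m + 1) (by omega) (by omega) (by omega) (by omega) h1
      omega
    · have e1 := hinj (i + 1) 1 (by omega) (by omega) (by omega) (by omega) h1
      have e2 := hinj (i + 1 + 1) (m + 1) (by omega) (by omega) (by omega) (by omega) h2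
      omega
  · have h1 := SimpleGraph.Walk.length_support (SimpleGraph.Walk.cons hadj P)
    rw [SimpleGraph.Walk.support_cons, List.length_cons, hs, List.length_map,
      List.length_range] at h1
    omega
  · intro v
    rw [SimpleGraph.Walk.support_cons, hs]
    simp only [List.mem_cons, List.mem_map, List.mem_range]
    constructor
    · rintro (rfl | ⟨i, hi, rfl⟩)
      · exact ⟨m + 1, by omega, le_rfl, rfl⟩
      · exact ⟨i + 1, by omega, by omega, rfl⟩
    · rintro ⟨i, h1, h2, rfl⟩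
      right
      exact ⟨i - 1, by omega, by rw [Nat.sub_add_cancel h1]⟩
  · intro e
    rw [mem_wed, hw]
    simp only [List.mem_cons, List.mem_map, List.mem_range]
    constructor
    · rintro ⟨s, (rfl | ⟨i, hi, rfl⟩), rfl⟩
      · left
        exact toFinset_mk _ _
      · right
        exact ⟨i, by omega, toFinset_mk _ _⟩
    · rintro (rfl | ⟨i, hi, rfl⟩)
      · exact ⟨_, Or.inl rfl, toFinset_mk _ _⟩
      · exact ⟨_, Or.inr ⟨i, by omega, rfl⟩, toFinset_mk _ _⟩

theorem noBad (hGB : StmtGB) (hST : StmtST) {V : Type} [Fintype V] (T : Finset (Finset V))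
    (f : ℤ × ℤ → V) (hS : Surf T) (hdeg : ∀ v, 6 ≤ dg T v) (hE : EW T 13) (hD : Dev T 6 f)
    (p q : ℤ × ℤ) (hp : hn p ≤ 6) (hq : hn q ≤ 6) (hpq : p ≠ q) (hf : f p = f q)
    (hmin : ∀ p' q', hn p' ≤ 6 → hn q' ≤ 6 → p' ≠ q' → f p' = f q' → hn (q - p) ≤ hn (q' - p')) :
    False := by
  obtain ⟨u, u', a, b, hsec, hv, hab⟩ := dec (q - p)
  let c : ℕ → ℤ × ℤ := cc p u u' a
  have hc0 : c 0 = p := by
    have k5 : ((min 0 a : ℕ) : ℤ) = 0 := by omega
    have k6 : ((0 - a : ℕ) : ℤ) = 0 := by omega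
    simp only [c, cc, k5, k6, zero_mul, add_zero]
  have hcl : c (a + b) = q := by
    have k5 : ((min (a + b) a : ℕ) : ℤ) = a := by omega
    have k6 : ((a + b - a : ℕ) : ℤ) = b := by omega
    have hq : q = p + (q - p) := by abel
    rw [hq, hv]
    simp only [c, cc, k5, k6]
    ext
    · simp only [Prod.fst_add]
      ring
    · simp only [Prod.snd_add]
      ring
  let l := a + b
  have hl : l = hn (q - p) := hab
  have hball : ∀ i, i ≤ l → hn (c i) ≤ 6 := by
    intro i hi
    refine cc_ball hsec hi ?_ ?_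
    · change hn (c 0) ≤ 6
      rw [hc0]
      exact hp
    · change hn (c (a + b)) ≤ 6
      rw [hcl]
      exact hq
  have hcne : ∀ i j, i < j → c i ≠ c j := by
    intro i j hij he
    have := cc_diff (p := p) hsec a hij.le
    change hn (c j - c i) = j - i at this
    rw [he, sub_self] at this
    have h0 : hn (0 : ℤ × ℤ) = 0 := rfl
    omega
  let g : ℕ → V := fun i => f (c i)
  have hgl : g l = g 0 := by
    change f (c (a + b)) = f (c 0)
    rw [hcl, hc0, hf]
  have hginj : ∀ i j, i < j → j ≤ l → (i ≠ 0 ∨ j ≠ l) → g i ≠ g j := by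
    intro i j hij hjl hne he
    have h1 := hmin (c i) (c j) (hball i (by omega)) (hball j hjl) (hcne i j hij) he
    have h2 : hn (c j - c i) = j - i := cc_diff hsec a hij.le
    omega
  have hadj : ∀ i < l, (sk T).Adj (g i) (g (i + 1)) := by
    intro i hi
    rw [hD.nb (c i) (hball i hi.le)]
    refine ⟨c (i + 1), ?_, rfl⟩
    have := cc_diff (p := p) hsec a (Nat.le_succ i)
    rw [show i + 1 - i = 1 by omega] at this
    exact this
  -- length at least three
  have hl12 : l ≤ 12 := by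
    have g1 := hn_le hp
    have g2 := hn_le hq
    rw [hl]
    apply le_hn <;> simp only [Prod.fst_sub, Prod.snd_sub] <;> push_cast at * <;> omega
  have hl3 : 3 ≤ l := by
    by_contra hlt
    have hcases : l = 0 ∨ l = 1 ∨ l = 2 := by omega
    rcases hcases with h | h | h
    · apply hpq
      rw [← hc0, ← hcl]
      change c 0 = c l
      rw [h]
    · have := hadj 0 (by omega)
      have h1 : g 1 = g 0 := by
        rw [← hgl, h]
      rw [zero_add, h1] at this
      exact this.1 rfl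
    · have hb := hball 1 (by omega)
      have h1 : hn (c 0 - c 1) = 1 := cc_diff' hsec a (Nat.zero_le 1)
      have h2 : hn (c 2 - c 1) = 1 := cc_diff hsec a (by omega)
      have h3 : f (c 0) = f (c 2) := by
        have : g 2 = g 0 := by rw [← hgl, h]
        exact this.symm
      exact hcne 0 2 (by omega) (hD.inj (c 1) hb _ _ h1 h2 h3)
  obtain ⟨w, hw, hwl, hsupp, hwed⟩ := cyc (sk T) g l hl3 hadj hgl (by
    intro i j hi hil hj hjl he
    rcases lt_trichotomy i j with hij | hij | hij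
    · exact absurd he (hginj i j hij hjl (Or.inl (by omega)))
    · exact hij
    · exact absurd he.symm (hginj j i hij hil (Or.inl (by omega))))
  obtain ⟨D, hDisc⟩ := hE (g l) w hw (by omega)
  obtain ⟨hGB1, hGB2⟩ := hGB V T hS hdeg (g l) w hw D hDisc
  have hbd := hDisc.bdy
  -- the inner vertices
  have hST' : ∀ i, 1 ≤ i → i + 1 ≤ l →
      (i ≠ a → (D.filter (fun t => g i ∈ t)).card = 3) ∧
      2 ≤ (D.filter (fun t => g i ∈ t)).card := by
    intro i hi hil
    obtain ⟨k, rfl⟩ : ∃ k, i = k + 1 := ⟨i - 1, by omega⟩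
    have d1 : hn (c k - c (k + 1)) = 1 := by
      have := cc_diff' (p := p) hsec a (Nat.le_succ k)
      rw [show k.succ - k = 1 by omega] at this
      exact this
    have d2 : hn (c (k + 2) - c (k + 1)) = 1 := by
      have := cc_diff (p := p) hsec a (Nat.le_succ (k + 1))
      rw [show (k + 1).succ - (k + 1) = 1 by omega] at this
      exact this
    have d3 : hn (c (k + 2) - c k) = 2 := by
      have := cc_diff (p := p) (i := k) (j := k + 2) hsec a (by omega)
      rw [show k + 2 - k = 2 by omega] at this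
      exact this
    have key := hST V T 6 f hS hD D hDisc.sub (c (k + 1)) (c k) (c (k + 2))
      (hball (k + 1) (by omega)) d1 d2 (hcne k (k + 2) (by omega)) (by
        intro e he hpe
        rw [hbd, hwed]
        change e = {g l, g 1} ∨ _ ↔ e = {g (k + 1), g k} ∨ e = {g (k + 1), g (k + 2)}
        change g (k + 1) ∈ e at hpe
        constructor
        · rintro (rfl | ⟨j, hj, rfl⟩)
          · simp only [mem_insert, mem_singleton] at hpe
            rcases hpe with h | h
            · exact absurd h (hginj (k + 1) l (by omega) le_rfl (Or.inl (by omega)))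
            · have hk : k = 0 := by
                by_contra hk
                exact hginj 1 (k + 1) (by omega) (by omega) (Or.inl (by omega)) h.symm
              subst hk
              left
              rw [hgl, zero_add, Finset.pair_comm]
          · simp only [mem_insert, mem_singleton] at hpe
            rcases hpe with h | h
            · have hk : k + 1 = j + 1 := by
                rcases lt_trichotomy (k + 1) (j + 1) with hij | hij | hij
                · exact absurd h (hginj _ _ hij (by omega) (Or.inl (by omega)))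
                · exact hij
                · exact absurd h.symm (hginj _ _ hij (by omega) (Or.inl (by omega)))
              have hk : k = j := by omega
              subst hk
              right
              rfl
            · have hk : k + 1 = j + 2 := by
                rcases lt_trichotomy (k + 1) (j + 2) with hij | hij | hij
                · exact absurd h (hginj _ _ hij (by omega) (Or.inl (by omega)))
                · exact hij
                · exact absurd h.symm (hginj _ _ hij (by omega) (Or.inl (by omega)))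
              have hk : k = j + 1 := by omega
              subst hk
              left
              rw [Finset.pair_comm]
        · rintro (rfl | rfl)
          · rcases Nat.eq_zero_or_pos k with hk | hk
            · subst hk
              left
              rw [hgl, zero_add, Finset.pair_comm]
            · right
              refine ⟨k - 1, by omega, ?_⟩
              rw [show k - 1 + 1 = k by omega, show k - 1 + 2 = k + 1 by omega,
                Finset.pair_comm]
          · right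
            exact ⟨k, by omega, rfl⟩)
    refine ⟨fun hia => key.1 ?_, key.2 d3⟩
    have := cc_straight p u u' (a := a) (i := k + 1) (by omega) hia
    rw [show k + 1 + 1 = k + 2 by omega, show k + 1 - 1 = k by omega] at this
    exact this
  have hlast : 1 ≤ (D.filter (fun t => g l ∈ t)).card := by
    obtain ⟨t, ht, hgt⟩ := hGB1 (g l) ((hsupp (g l)).2 ⟨l, by omega, le_rfl, rfl⟩)
    exact Finset.card_pos.2 ⟨t, by simp [ht, hgt]⟩
  have himg : w.support.toFinset = (Finset.Icc 1 l).image g := by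
    ext v
    rw [List.mem_toFinset, hsupp, Finset.mem_image]
    constructor
    · rintro ⟨i, h1, h2, h3⟩
      exact ⟨i, Finset.mem_Icc.2 ⟨h1, h2⟩, h3⟩
    · rintro ⟨i, h1, h3⟩
      exact ⟨i, (Finset.mem_Icc.1 h1).1, (Finset.mem_Icc.1 h1).2, h3⟩
  rw [himg, Finset.sum_image (by
    intro i hi j hj he
    have hi := Finset.mem_Icc.1 hi
    have hj := Finset.mem_Icc.1 hj
    rcases lt_trichotomy i j with hij | hij | hij
    · exact absurd he (hginj i j hij hj.2 (Or.inl (by omega)))
    · exact hij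
    · exact absurd he.symm (hginj j i hij hi.2 (Or.inl (by omega))))] at hGB2
  have hbound : ∀ i ∈ Finset.Icc 1 l, ((3 : ℤ) - (D.filter (fun t => g i ∈ t)).card) ≤
      (if i = l then 2 else 0) + (if i = a then 1 else 0) := by
    intro i hi
    have hi := Finset.mem_Icc.1 hi
    by_cases h1 : i = l
    · rw [h1, if_pos rfl]
      have : (0 : ℤ) ≤ if l = a then 1 else 0 := by split_ifs <;> omega
      omega
    · rw [if_neg h1]
      obtain ⟨k1, k2⟩ := hST' i hi.1 (by omega)
      by_cases h2 : i = a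
      · rw [if_pos h2]
        omega
      · rw [if_neg h2]
        have := k1 h2
        omega
  have hsum := Finset.sum_le_sum hbound
  rw [Finset.sum_add_distrib, Finset.sum_ite_eq', Finset.sum_ite_eq'] at hsum
  have h1 : (if l ∈ Finset.Icc 1 l then (2 : ℤ) else 0) ≤ 2 := by split_ifs <;> omega
  have h2 : (if a ∈ Finset.Icc 1 l then (1 : ℤ) else 0) ≤ 1 := by split_ifs <;> omega
  omega

theorem ij (hGB : StmtGB) (hST : StmtST) (_hAC : StmtAC) (_hEV : StmtEV) : StmtIJ := by
  intro V _ T f hS hdeg hE hD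
  refine ⟨?_, fun p hp => hD.nb p (by omega)⟩
  by_contra hcon
  simp only [not_forall] at hcon
  obtain ⟨p0, q0, hp0, hq0, hf0, hne0⟩ := hcon
  have hex : ∃ n, ∃ p q : ℤ × ℤ, hn p ≤ 6 ∧ hn q ≤ 6 ∧ p ≠ q ∧ f p = f q ∧ hn (q - p) = n :=
    ⟨_, p0, q0, hp0, hq0, hne0, hf0, rfl⟩
  obtain ⟨p, q, hp, hq, hpq, hf, hn1⟩ := Nat.find_spec hex
  refine noBad hGB hST T f hS hdeg hE hD p q hp hq hpq hf ?_
  intro p' q' h1 h2 h3 h4
  rw [hn1]
  exact Nat.find_min' hex ⟨p', q', h1, h2, h3, h4, rfl⟩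

end Pool.Agent.Helper1.KC
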